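import Pool.Agent.TH957.PB.Alt
import Pool.Agent.Q163.LE.Tr
import Pool.Agent.TH456.TM.Inst

/-!
# The pencil `8 x₀ G + x₁ π²`, `x₀ (π³ ± 12 ζ(3)) + 18 x₁ ζ(3)` over simultaneously Liouville fields
-/

set_option autoImplicit false

namespace Pool.Agent.U664.PL

open Pool.Agent.Q163.LE Pool.Agent.W34.GB Filter Topology

/-- the last inequality, with an abstract exponent -/
theorem last_step {c D K q : ℝ} (n : ℕ) (hK : 0 < K) (hq : 0 < q)
    (h : c * (1 / (K ^ n * q ^ n)) ≤ D * (1 / q ^ (n + 1))) : c * q ≤ D * K ^ n := by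
  have h4 : c * (1 / (K ^ n * q ^ n)) * (K ^ n * q ^ (n + 1)) ≤
      D * (1 / q ^ (n + 1)) * (K ^ n * q ^ (n + 1)) :=
    mul_le_mul_of_nonneg_right h (by positivity)
  have hKn : K ^ n ≠ 0 := (pow_pos hK n).ne'
  have hqn : q ^ n ≠ 0 := (pow_pos hq n).ne'
  have hqn1 : q ^ (n + 1) ≠ 0 := (pow_pos hq (n + 1)).ne'
  have e4 : c * (1 / (K ^ n * q ^ n)) * (K ^ n * q ^ (n + 1)) = c * q := by
    rw [pow_succ]
    field_simp
  have e5 : D * (1 / q ^ (n + 1)) * (K ^ n * q ^ (n + 1)) = D * K ^ n := by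
    field_simp
  rw [e4, e5] at h4
  exact h4

/-- rational approximations of all the numbers in a common pencil -/
theorem pencil_F {F : Subfield ℝ} (hF : SimLiouville F) (ε : ℝ) (hε : ε = 1 ∨ ε = -1)
    (w : ℝ) (hw : w ∈ F) (hA : 8 * GC + w * Real.pi ^ 2 ∈ F)
    (hB : Real.pi ^ 3 + 12 * ε * Z3 + 18 * w * Z3 ∈ F) : False := by
  classical
  obtain ⟨c, hc, h⟩ := Pool.Agent.TH957.PB.pencil ε hε
  obtain ⟨n, hn⟩ : ∃ n : ℕ, n = 1999 := ⟨_, rfl⟩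
  have hnr : (1999 : ℝ) = (n : ℝ) := by rw [hn]; norm_num
  rw [hnr] at h
  clear hnr hn
  obtain ⟨A, hAd⟩ : ∃ A : ℝ, A = 8 * GC + w * Real.pi ^ 2 := ⟨_, rfl⟩
  obtain ⟨B, hBd⟩ : ∃ B : ℝ, B = Real.pi ^ 3 + 12 * ε * Z3 + 18 * w * Z3 := ⟨_, rfl⟩
  rw [← hAd] at hA
  rw [← hBd] at hB
  -- constants
  obtain ⟨K, hK⟩ : ∃ K : ℝ, K = |w| + 2 := ⟨_, rfl⟩
  have hK0 : 0 < K := by rw [hK]; positivity
  have hK1 : 1 ≤ K := by rw [hK]; linarith [abs_nonneg w]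
  obtain ⟨D, hD⟩ : ∃ D : ℝ, D = 1 + Real.pi ^ 2 + 18 * |Z3| := ⟨_, rfl⟩
  have hD0 : 0 < D := by rw [hD]; positivity
  obtain ⟨q, hq0, hq1, hq⟩ := hF {w, A, B} (by
    intro x hx
    simp only [Finset.mem_insert, Finset.mem_singleton] at hx
    rcases hx with rfl | rfl | rfl
    · exact hw
    · exact hA
    · exact hB) (n + 1) (⌈D * K ^ n / c⌉₊ + 1)
  obtain ⟨p, hp⟩ := hq w (by simp)
  obtain ⟨u, hu⟩ := hq A (by simp)
  obtain ⟨v, hv⟩ := hq B (by simp)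
  have hqr : (1 : ℝ) ≤ q := by exact_mod_cast hq1
  have hqpos : (0 : ℝ) < q := by linarith
  have hqbig : D * K ^ n / c < q := by
    have h1 : ((⌈D * K ^ n / c⌉₊ + 1 : ℕ) : ℝ) ≤ q := by exact_mod_cast hq0
    have h2 := Nat.le_ceil (D * K ^ n / c)
    push_cast at h1
    linarith
  obtain ⟨s, hs⟩ : ∃ s : ℝ, s = 1 / (q : ℝ) ^ (n + 1) := ⟨_, rfl⟩
  have hsmall : s ≤ 1 := by
    rw [hs, div_le_one (by positivity)]
    exact one_le_pow₀ hqr
  have hs0 : 0 ≤ s := by rw [hs]; positivity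
  rw [← hs] at hp hu hv
  have hH0 : |((q : ℤ) : ℝ)| ≤ K * q := by
    rw [Int.cast_natCast, abs_of_pos hqpos]
    nlinarith
  have hH1 : |((p : ℤ) : ℝ)| ≤ K * q := by
    have h1 : |(p : ℝ)| ≤ |(q : ℝ) * w - p| + |(q : ℝ) * w| := by
      have := abs_sub_abs_le_abs_sub ((p : ℝ)) ((q : ℝ) * w)
      rw [abs_sub_comm] at this
      linarith
    rw [abs_mul, abs_of_pos hqpos] at h1
    rw [hK]
    nlinarith [hp.le, hsmall]
  have h1 := h (q : ℤ) p u v (by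
    intro hh
    have : q = 0 := by exact_mod_cast hh
    omega) (K * q) hH0 hH1
  have e1 : 8 * ((q : ℤ) : ℝ) * GC + p * Real.pi ^ 2 - u =
      ((q : ℝ) * A - u) - ((q : ℝ) * w - p) * Real.pi ^ 2 := by
    rw [hAd]
    push_cast
    ring
  have e2 : ((q : ℤ) : ℝ) * (Real.pi ^ 3 + 12 * ε * Z3) + 18 * p * Z3 - v =
      ((q : ℝ) * B - v) - ((q : ℝ) * w - p) * (18 * Z3) := by
    rw [hBd]
    push_cast
    ring
  have hpi2 : (0 : ℝ) < Real.pi ^ 2 := by positivity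
  have b1 : |8 * ((q : ℤ) : ℝ) * GC + p * Real.pi ^ 2 - u| ≤ D * s := by
    rw [e1]
    refine (abs_sub _ _).trans ?_
    rw [abs_mul, abs_of_pos hpi2, hD]
    have h2 : |(q : ℝ) * w - p| * Real.pi ^ 2 ≤ s * Real.pi ^ 2 :=
      mul_le_mul_of_nonneg_right hp.le (by positivity)
    have h3 : 0 ≤ 18 * |Z3| * s := by positivity
    linarith [hu.le]
  have b2 : |((q : ℤ) : ℝ) * (Real.pi ^ 3 + 12 * ε * Z3) + 18 * p * Z3 - v| ≤ D * s := by
    rw [e2]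
    refine (abs_sub _ _).trans ?_
    rw [abs_mul, abs_mul, abs_of_pos (by norm_num : (0 : ℝ) < 18), hD]
    have h2 : |(q : ℝ) * w - p| * (18 * |Z3|) ≤ s * (18 * |Z3|) :=
      mul_le_mul_of_nonneg_right hp.le (by positivity)
    have h3 : 0 ≤ Real.pi ^ 2 * s := by positivity
    linarith [hv.le]
  have h2 : c * (K * q) ^ (-(n : ℝ)) ≤ D * s := h1.trans (max_le b1 b2)
  have e3 : (K * (q : ℝ)) ^ (-(n : ℝ)) = 1 / (K ^ n * (q : ℝ) ^ n) := by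
    rw [Real.rpow_neg (by positivity), one_div, ← mul_pow, Real.rpow_natCast]
  rw [e3, hs] at h2
  have h3 := last_step n hK0 hqpos h2
  rw [div_lt_iff₀ hc] at hqbig
  linarith

end Pool.Agent.U664.PL
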